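import Pool.Agent.H78.SK.FinA

/-!
# MP_ec3f62_gt: exponentially close Steklov spectra, different numbers of boundary components

In every dimension `n ≥ 3` and for every `C` there are two compact connected Riemannian
manifolds whose Steklov eigenvalues differ by at most `K exp (- C σ_j)`, the boundary of the
first being two round spheres of radius `2`, that of the second `2^n` round unit spheres; the
boundaries are not Laplace isospectral.
-/

namespace Pool.Agent.Results.MP_ec3f62_gt.ComponentsInaudible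

open Pool.Agent.H78.SK Pool.Agent.H35.CA Filter

theorem result (n : ℕ) (hn : 3 ≤ n) (C : ℝ) :
    ∃ (A : Dom n 1) (B : Dom n (2 ^ n - 1)), IsConnected A.Om ∧ IsConnected B.Om ∧
      (∀ c w, ‖w‖ = 1 → A.ρ (A.pt c w) * A.rad c = 2) ∧
      (∀ c w, ‖w‖ = 1 → B.ρ (B.pt c w) * B.rad c = 1) ∧
      (∃ K : ℝ, ∀ j, |A.steklov j - B.steklov j| ≤ K * Real.exp (-(C * A.steklov j))) ∧
      Tendsto A.steklov atTop atTop ∧
      ∃ j, A.bdryLaplace j ≠ B.bdryLaplace j := by
  obtain ⟨Y⟩ := exists_SH (n := n) (by omega)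
  have hk := kz_pos hn
  have hk0 : 0 < kz n := by linarith
  set C' : ℝ := max C 0 with hC'
  have hC0 : 0 ≤ C' := le_max_right _ _
  have hS : (3 : ℝ) ≤ 3 + C' := by linarith
  obtain ⟨A, hA, hAc, -⟩ := exists_SD (N := 1) hn (fun _ => 2)
    (fun c => if c = none then 0 else 1 / kz n) (fun _ => two_pos)
    (fun c => by split_ifs <;> positivity) hS
  have hcard : Fintype.card (Option (Fin (2 ^ n - 1))) = Fintype.card (Finset (Fin n)) := by
    rw [Fintype.card_option, Fintype.card_fin, Fintype.card_finset, Fintype.card_fin]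
    have : 0 < 2 ^ n := Nat.two_pow_pos n
    omega
  let e : Option (Fin (2 ^ n - 1)) ≃ Finset (Fin n) := Fintype.equivOfCardEq hcard
  obtain ⟨B, hB, hBc, -⟩ := exists_SD (N := 2 ^ n - 1) hn (fun _ => 1)
    (fun c => ((e c).card : ℝ) / (4 * kz n)) (fun _ => one_pos)
    (fun c => by positivity) hS
  obtain ⟨⟨K, hK⟩, hT⟩ := compare hn Y hA hB hC0
    (fun c => by
      have : C' / 2 ≤ C' := by linarith
      linarith)
    (fun c => by rw [div_one]; linarith)
    (cntdA hn Y) (cntdB hn Y e) (fun j => ⟨j, cc2_unb (by omega) Y j⟩)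
  refine ⟨A, B, hAc, hBc, fun c w hw => hA.radius c w hw, fun c w hw => hB.radius c w hw,
    ⟨|K|, fun j => ?_⟩, hT, 2, ?_⟩
  · have h0 : 0 ≤ A.steklov j := minmax_nonneg (energy_nonneg A) j
    have h1 : Real.exp (-(C' * A.steklov j)) ≤ Real.exp (-(C * A.steklov j)) :=
      Real.exp_le_exp.2 (by nlinarith [le_max_left C 0])
    calc |A.steklov j - B.steklov j| ≤ K * Real.exp (-(C' * A.steklov j)) := hK j
      _ ≤ |K| * Real.exp (-(C' * A.steklov j)) :=
        mul_le_mul_of_nonneg_right (le_abs_self K) (Real.exp_pos _).le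
      _ ≤ |K| * Real.exp (-(C * A.steklov j)) :=
        mul_le_mul_of_nonneg_left h1 (abs_nonneg K)
  · have h1 : ((n : ℝ) - 1) / 2 ^ 2 ≤ A.bdryLaplace 2 :=
      lap_lower hn Y hA (fun _ => le_rfl) (by norm_num)
    have h2 : B.bdryLaplace 2 ≤ 0 := lap_zero hn Y hB (by
      have : 2 ^ 3 ≤ 2 ^ n := Nat.pow_le_pow_right (by norm_num) hn
      omega)
    have h3 : (3 : ℝ) ≤ n := by exact_mod_cast hn
    have h4 : 0 < ((n : ℝ) - 1) / 2 ^ 2 := by
      apply div_pos <;> [linarith; norm_num]
    intro h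
    rw [h] at h1
    linarith

end Pool.Agent.Results.MP_ec3f62_gt.ComponentsInaudible
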