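import Pool.Agent.H78.SK.FinD

/-!
# MP_ec3f62_gt: uniformly close Steklov spectra, boundaries that are not isospectral

In every dimension `n ≥ 3` there are two closed Riemannian manifolds (unions of
`(2^n - 2) (2^n + 2)` round spheres, with radii `2` and `1/2` for the first, all of radius `1` for
the second) which are not Laplace isospectral and such that for all `C` and `ε > 0` they are the
boundaries of two conformally Euclidean metrics on one ball with round holes, with Steklov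
eigenvalues `|σ_j(A) - σ_j(B)| ≤ ε exp (- C σ_j(A))` for all `j`.
-/

namespace Pool.Agent.Results.MP_ec3f62_gt.UniformCloseness

open Pool.Agent.H78.SK Pool.Agent.H35.CA Filter

theorem result (n : ℕ) (hn : 3 ≤ n) :
    ∃ (N : ℕ) (P : Finset (Option (Fin N))),
      N + 1 = (2 ^ n - 2) * (2 ^ n + 2) ∧ P.card = 2 * (2 ^ n - 2) ∧
      ∀ C ε : ℝ, 0 < ε → ∃ A B : Dom n N,
        A.R0 = B.R0 ∧ A.p = B.p ∧ A.R = B.R ∧ IsConnected A.Om ∧
        (∀ c w, ‖w‖ = 1 → A.ρ (A.pt c w) * A.rad c = if c ∈ P then 2 else 1 / 2) ∧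
        (∀ c w, ‖w‖ = 1 → B.ρ (B.pt c w) * B.rad c = 1) ∧
        (∀ j, |A.steklov j - B.steklov j| ≤ ε * Real.exp (-(C * A.steklov j))) ∧
        Tendsto A.steklov atTop atTop ∧
        A.bdryLaplace (N + 1) ≤ ((n : ℝ) - 1) / 4 ∧ (n : ℝ) - 1 ≤ B.bdryLaplace (N + 1) := by
  classical
  obtain ⟨Y⟩ := exists_SH (n := n) (by omega)
  obtain ⟨C1, hC1, hCb⟩ := smt_bound
  -- the index set
  obtain ⟨T0, hT0⟩ : ∃ T0 : Finset (Fin n), T0.card = 2 := by
    obtain ⟨T0, -, h⟩ := Finset.exists_subset_card_eq (s := (Finset.univ : Finset (Fin n))) (n := 2)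
      (by rw [Finset.card_univ, Fintype.card_fin]; omega)
    exact ⟨T0, h⟩
  have hTh : (Th T0).card = 2 ^ n - 2 := by
    have := card_Th hT0
    omega
  have hpow : 2 ^ 3 ≤ 2 ^ n := Nat.pow_le_pow_right (by norm_num) hn
  obtain ⟨N, hN⟩ : ∃ N : ℕ, N + 1 = (2 ^ n - 2) * (2 ^ n + 2) := by
    have : 0 < (2 ^ n - 2) * (2 ^ n + 2) := Nat.mul_pos (by omega) (by omega)
    exact ⟨(2 ^ n - 2) * (2 ^ n + 2) - 1, by omega⟩
  have hcard : Fintype.card (Option (Fin N)) =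
      Fintype.card (↥(Th T0) × (Finset (Fin n) ⊕ Bool)) := by
    rw [Fintype.card_option, Fintype.card_fin, Fintype.card_prod, Fintype.card_sum,
      Fintype.card_coe, hTh, Fintype.card_finset, Fintype.card_fin, Fintype.card_bool, hN]
  let e : Option (Fin N) ≃ ↥(Th T0) × (Finset (Fin n) ⊕ Bool) := Fintype.equivOfCardEq hcard
  refine ⟨N, Finset.univ.filter (fun c => sA ((e c).1, (e c).2) = 1), hN, ?_, ?_⟩
  · -- number of spheres of radius 2
    have h1 : (Finset.univ.filter (fun c => sA ((e c).1, (e c).2) = 1)).card =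
        ∑ c, if sA ((e c).1, (e c).2) = 1 then 1 else 0 := Finset.card_filter _ _
    rw [h1, sum_idx e (fun x => if sA x = 1 then 1 else 0)]
    simp [sA, hTh, mul_comm]
  intro C ε hε
  set sa : Option (Fin N) → ℕ := fun c => sA ((e c).1, (e c).2) with hsa
  set ea : Option (Fin N) → ℕ := fun c => eA ((e c).1, (e c).2) with hea
  set eb : Option (Fin N) → ℕ := fun c => eB ((e c).1, (e c).2) with heb
  have hsa0 : ∀ c, 0 < sa c := fun c => sA_pos _
  have hsa4 : ∀ c, (sa c : ℝ) ≤ 4 := fun c => by exact_mod_cast sA_le _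
  have hcc : ccS Y sa ea = ccS Y (fun _ => 2) eb := cc_same hn Y hT0 e
  have hk := kz_pos hn
  -- the constants
  set C' : ℝ := max C 0 with hC'
  have hC0 : 0 ≤ C' := le_max_right _ _
  obtain ⟨δ, hδ0, hδ1, hδ2, hδ3⟩ : ∃ δ : ℝ, 0 < δ ∧ δ * C' ≤ 1 ∧ δ ≤ 1 / 2 ∧ 6 * δ ≤ ε := by
    refine ⟨min (min (ε / 6) (1 / (C' + 1))) (1 / 2), by positivity, ?_, min_le_right _ _, ?_⟩
    · have h1 : min (min (ε / 6) (1 / (C' + 1))) (1 / 2) ≤ 1 / (C' + 1) :=
        (min_le_left _ _).trans (min_le_right _ _)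
      calc min (min (ε / 6) (1 / (C' + 1))) (1 / 2) * C' ≤ 1 / (C' + 1) * C' :=
            mul_le_mul_of_nonneg_right h1 hC0
        _ ≤ 1 := by rw [div_mul_eq_mul_div, one_mul, div_le_one (by positivity)]; linarith
    · have h1 : min (min (ε / 6) (1 / (C' + 1))) (1 / 2) ≤ ε / 6 :=
        (min_le_left _ _).trans (min_le_left _ _)
      linarith
  have hgA : ∀ c, 0 ≤ 2 * aS n (sa c) (ea c) * kz n := fun c =>
    mul_nonneg (mul_nonneg zero_le_two (aS_nonneg hn _)) (by linarith)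
  have hgB : ∀ c, 0 ≤ 2 * aS n 2 (eb c) * kz n := fun c =>
    mul_nonneg (mul_nonneg zero_le_two (aS_nonneg hn _)) (by linarith)
  obtain ⟨S1, hS1, hSA⟩ := exists_S (fun c => rS (sa c)) (fun c => 2 * aS n (sa c) (ea c) * kz n)
    (fun c => rS_pos (hsa0 c)) hgA hC0 hδ0 hC1 hk
  obtain ⟨S2, hS2, hSB⟩ := exists_S (fun _ : Option (Fin N) => rS 2)
    (fun c => 2 * aS n 2 (eb c) * kz n) (fun _ => rS_pos two_pos) hgB hC0 hδ0 hC1 hk
  set S : ℝ := max S1 S2 with hS
  have hS3 : 3 ≤ S := hS1.trans (le_max_left _ _)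
  -- the energy of the modes of degree zero
  obtain ⟨η, hη0, hηA, hηB⟩ : ∃ η : ℝ, 0 < η ∧ (∀ c, η ≤ δ * rS (sa c) ^ (n - 1)) ∧
      η ≤ δ * rS 2 ^ (n - 1) := by
    refine ⟨δ * (1 / 2) ^ (n - 1), by positivity, fun c => ?_, ?_⟩
    · refine mul_le_mul_of_nonneg_left (pow_le_pow_left₀ (by norm_num) ?_ _) hδ0.le
      unfold rS
      have h1 : (0 : ℝ) < sa c := by exact_mod_cast hsa0 c
      rw [div_le_div_iff₀ (by norm_num) h1]
      linarith [hsa4 c]
    · refine mul_le_mul_of_nonneg_left (pow_le_pow_left₀ (by norm_num) ?_ _) hδ0.le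
      unfold rS
      norm_num
  obtain ⟨A, hA, hTA, hAc, hA1, hA2, hA3⟩ := exists_D2 (N := N) hn Y (s := sa) (e := ea) hsa0 hCb
    hS3 hη0
  obtain ⟨B, hB, hTB, hBc, hB1, hB2, hB3⟩ := exists_D2 (N := N) hn Y (s := fun _ => 2) (e := eb)
    (fun _ => two_pos) hCb hS3 hη0
  obtain ⟨hA4, hA5⟩ := close2 hn Y hsa0 hA hTA hC0 hC1 hδ0 hδ1 hδ2 hηA
    (fun c k hk => hSA S (le_max_left _ _) c k hk)
  obtain ⟨hB4, hB5⟩ := close2 hn Y (fun _ => two_pos) hB hTB hC0 hC1 hδ0 hδ1 hδ2 (fun _ => hηB)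
    (fun c k hk => hSB S (le_max_right _ _) c k hk)
  rw [← hcc] at hB5
  obtain ⟨h1, h2⟩ := compare2 hn hC0 hδ0 hδ1 (ccS_zero (by omega) Y hsa0)
    (ccS_unb hn Y sa ea hsa0) hA4 hB4 hA5 hB5
  have hrA : ∀ c, rS (sa c) = if c ∈ Finset.univ.filter (fun c => sA ((e c).1, (e c).2) = 1)
      then 2 else 1 / 2 := by
    intro c
    simp only [Finset.mem_filter, Finset.mem_univ, true_and]
    rw [hsa]
    simp only
    rcases (e c).2 with U | b
    · simp [sA, rS]
      norm_num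
    · simp [sA, rS]
  have hrB : rS 2 = 1 := by unfold rS; norm_num
  refine ⟨A, B, by rw [hA1, hB1], by rw [hA3, hB3], by rw [hA2, hB2], hAc,
    fun c w hw => ?_, fun c w hw => ?_, fun j => ?_, h2, ?_, ?_⟩
  · rw [hA.radius c w hw]
    exact hrA c
  · rw [hB.radius c w hw, hrB]
  · have h0 : 0 ≤ A.steklov j := minmax_nonneg (energy_nonneg A) j
    have h3 : Real.exp (-(C' * A.steklov j)) ≤ Real.exp (-(C * A.steklov j)) :=
      Real.exp_le_exp.2 (by nlinarith [le_max_left C 0])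
    calc |A.steklov j - B.steklov j| ≤ 6 * δ * Real.exp (-(C' * A.steklov j)) := h1 j
      _ ≤ ε * Real.exp (-(C' * A.steklov j)) :=
        mul_le_mul_of_nonneg_right hδ3 (Real.exp_pos _).le
      _ ≤ ε * Real.exp (-(C * A.steklov j)) := mul_le_mul_of_nonneg_left h3 hε.le
  · obtain ⟨T1, hT1⟩ : ∃ T1, T1 ∈ Th T0 := by
      have : 0 < (Th T0).card := by omega
      exact Finset.card_pos.1 this
    have h3 := lap_one hn Y hA (e.symm (⟨T1, hT1⟩, Sum.inr true))
    have h4 : rS (sa (e.symm (⟨T1, hT1⟩, Sum.inr true))) = 2 := by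
      rw [hsa]
      simp [sA, rS]
    rw [h4] at h3
    refine h3.trans (le_of_eq ?_)
    norm_num
  · have h3 : ((n : ℝ) - 1) / 1 ^ 2 ≤ B.bdryLaplace (N + 1) :=
      lap_lower hn Y hB (fun _ => by rw [hrB]) le_rfl
    simpa using h3

end Pool.Agent.Results.MP_ec3f62_gt.UniformCloseness
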